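import Pool.Agent.Lib.MP_62ba83_co.BL.Adapt
import Pool.Agent.Lib.MP_62ba83_co.G.Gen

set_option autoImplicit false

namespace Pool.Agent.Results.MP_62ba83_co.BombieriLangNo

open Pool.Agent.Lib.MP_62ba83_co

theorem result (h : G.BombieriLang) :
    (∃ f : MvPolynomial (Fin 5 × Fin 2) ℚ, f ≠ 0 ∧ ∀ p : Fin 5 → EuclideanSpace ℝ (Fin 2),
      (∀ ε : ℝ, 0 < ε → ∃ q : Fin 5 → EuclideanSpace ℝ (Fin 2), (∀ i, dist (p i) (q i) < ε) ∧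
        ∀ i j, ∃ r : ℚ, dist (q i) (q j) = (r : ℝ)) →
      MvPolynomial.aeval (fun s : Fin 5 × Fin 2 => p s.1 s.2) f = 0) ∧
    ¬ (∀ p : Fin 5 → EuclideanSpace ℝ (Fin 2), Function.Injective p → ∀ ε : ℝ, 0 < ε →
      ∃ q : Fin 5 → EuclideanSpace ℝ (Fin 2), (∀ i, dist (p i) (q i) < ε) ∧
        ∀ i j, ∃ r : ℚ, dist (q i) (q j) = (r : ℝ)) :=
  BL.final (BL.notDense (fun K _ _ D x y d hS hg hi =>
    G.gt_coord K D x y d hS.sq hS.x0 hS.y0 hS.x1 hS.y1 hS.y2 hS.d01 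
      (BL.ne_of hS.sq hS.x0 hS.y0 hS.x1 hS.y1 hS.y2 hi) hi hg) h)

end Pool.Agent.Results.MP_62ba83_co.BombieriLangNo
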