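import Pool.Agent.Lib.MP_62ba83_co.Mirror

set_option autoImplicit false

namespace Pool.Agent.Results.MP_62ba83_co.CircleInversePair

open Pool.Agent.Lib.MP_62ba83_co

/-- `S` is rationally approximable: for every `ε > 0` some set with all distances rational has a
point within `ε` of each point of `S`. The plane is `ℂ`. -/
def Approx (S : Set ℂ) : Prop :=
  ∀ ε : ℝ, 0 < ε → ∃ X : Set ℂ, (∀ x ∈ X, ∀ y ∈ X, ∃ r : ℚ, dist x y = r) ∧
    ∀ p ∈ S, ∃ x ∈ X, dist p x < ε

theorem result (O P : ℂ) (ρ : ℝ) (hρ : 0 < ρ) :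
    Approx (Metric.sphere O ρ ∪ {O, P, EuclideanGeometry.inversion O ρ P}) :=
  (inverse_ap O P hρ).out

end Pool.Agent.Results.MP_62ba83_co.CircleInversePair
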