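import Pool.Agent.Lib.MP_62ba83_co.G.Dist

set_option autoImplicit false

namespace Pool.Agent.Results.MP_62ba83_co.GeneralType

open Pool.Agent.Lib.MP_62ba83_co

theorem result (K : Type) [Field K] [CharZero K] (d : Fin 5 → Fin 5 → K)
    (X Y : Fin 5 → AlgebraicClosure K)
    (planar : ∀ a b, algebraMap K (AlgebraicClosure K) (d a b) ^ 2 =
      (X a - X b) ^ 2 + (Y a - Y b) ^ 2)
    (unit : d 0 1 = 1)
    (gen : IntermediateField.adjoin ℚ (Set.range fun p : Fin 5 × Fin 5 => d p.1 p.2) = ⊤)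
    (dim : Algebra.trdeg ℚ K = 6) : G.GeneralType K :=
  G.gt_dist K _ d X Y planar unit gen dim

end Pool.Agent.Results.MP_62ba83_co.GeneralType
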