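import Pool.Agent.Lib.MP_62ba83_co.Mirror

set_option autoImplicit false

namespace Pool.Agent.Results.MP_62ba83_co.LineMirrorPairs

open Pool.Agent.Lib.MP_62ba83_co

/-- `S` is rationally approximable: for every `ε > 0` some set with all distances rational has a
point within `ε` of each point of `S`. The plane is `ℂ`. -/
def Approx (S : Set ℂ) : Prop :=
  ∀ ε : ℝ, 0 < ε → ∃ X : Set ℂ, (∀ x ∈ X, ∀ y ∈ X, ∃ r : ℚ, dist x y = r) ∧
    ∀ p ∈ S, ∃ x ∈ X, dist p x < ε

theorem result (A B P P' Q Q' : ℂ) (S : Set ℂ) (hAB : A ≠ B)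
    (hS : S ⊆ affineSpan ℝ {A, B}) (hb : Bornology.IsBounded S)
    (h1 : dist P' A = dist P A) (h2 : dist P' B = dist P B)
    (h3 : dist Q' A = dist Q A) (h4 : dist Q' B = dist Q B) :
    Approx (S ∪ {P, P', Q, Q'}) :=
  (mirror_ap hAB hS hb h1 h2 h3 h4).out

end Pool.Agent.Results.MP_62ba83_co.LineMirrorPairs
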